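import Mathlib

open MeasureTheory Filter Topology Set Real
open scoped Matrix

namespace Pool.Agent.Results.MP_271f9a_pr.Kappa

/-- covariance matrix of fractional Brownian motion with 2H = γ at the times 1, ..., N -/
noncomputable def R (γ : ℝ) (N : ℕ) : Matrix (Fin N) (Fin N) ℝ := fun i j =>
  1 / 2 * (|((i : ℕ) + 1 : ℝ)| ^ γ + |((j : ℕ) + 1 : ℝ)| ^ γ -
    |((i : ℕ) + 1 : ℝ) - ((j : ℕ) + 1 : ℝ)| ^ γ)

/-- the Hermitian form a* M a -/
noncomputable def q {N : ℕ} (M : Matrix (Fin N) (Fin N) ℝ) (a : Fin N → ℂ) : ℝ :=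
  (∑ i, ∑ j, (starRingEnd ℂ) (a i) * (M i j : ℂ) * a j).re

/-- smallest generalized eigenvalue of (R ∘ R, R) -/
noncomputable def kappa (γ : ℝ) (N : ℕ) : ℝ :=
  sInf {r | ∃ a : Fin N → ℂ, a ≠ 0 ∧ r = q (fun i j => R γ N i j ^ 2) a / q (R γ N) a}

noncomputable def g (γ x ξ : ℝ) : ℝ := (1 - cos (x * ξ)) * ξ ^ (-(1 + γ))

lemma g_int1 {γ : ℝ} (h0 : 0 < γ) (h2 : γ < 2) : IntegrableOn (g γ 1) (Ioi 0) := by
  have hm : ∀ s : Set ℝ, AEStronglyMeasurable (g γ 1) (volume.restrict s) := fun s =>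
    (by unfold g; fun_prop : Measurable (g γ 1)).aestronglyMeasurable
  rw [← Ioc_union_Ioi_eq_Ioi (zero_le_one' ℝ)]
  apply IntegrableOn.union
  · have h := (intervalIntegral.intervalIntegrable_rpow' (a := 0) (b := 1)
      (r := 1 - γ) (by linarith)).1
    refine Integrable.mono' h (hm _) ?_
    filter_upwards [ae_restrict_mem measurableSet_Ioc] with ξ hξ
    have h1 := Real.one_sub_sq_div_two_le_cos (x := ξ)
    have h3 := Real.cos_le_one ξ
    have h4 : 0 < ξ ^ (-(1 + γ)) := rpow_pos_of_pos hξ.1 _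
    have h5 : ξ ^ (1 - γ) = ξ ^ 2 * ξ ^ (-(1 + γ)) := by
      rw [← rpow_natCast, ← rpow_add hξ.1]; congr 1; push_cast; ring
    rw [g, one_mul, Real.norm_eq_abs, abs_of_nonneg (mul_nonneg (by linarith) h4.le), h5]
    apply mul_le_mul_of_nonneg_right _ h4.le
    nlinarith [sq_nonneg ξ]
  · have h := (integrableOn_Ioi_rpow_of_lt (a := -(1 + γ)) (by linarith) one_pos).const_mul 2
    refine Integrable.mono' h (hm _) ?_
    filter_upwards [ae_restrict_mem measurableSet_Ioi] with ξ hξ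
    have h1 := Real.neg_one_le_cos ξ
    have h3 := Real.cos_le_one ξ
    have h4 : 0 < ξ ^ (-(1 + γ)) := rpow_pos_of_pos (lt_trans one_pos hξ) _
    rw [g, one_mul, Real.norm_eq_abs, abs_of_nonneg (mul_nonneg (by linarith) h4.le)]
    apply mul_le_mul_of_nonneg_right _ h4.le
    linarith

lemma g_abs (γ x : ℝ) : g γ x = g γ |x| := by
  ext ξ
  rcases abs_choice x with h | h <;> simp [g, h]

lemma g_scale (γ : ℝ) {x ξ : ℝ} (hx : 0 < x) (hξ : 0 < ξ) :
    g γ x ξ = x ^ (1 + γ) * g γ 1 (x * ξ) := by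
  have : x ^ (1 + γ) * x ^ (-(1 + γ)) = 1 := by rw [← rpow_add hx]; simp
  simp only [g, one_mul]
  rw [mul_rpow hx.le hξ.le]
  linear_combination (-(1 - cos (x * ξ)) * ξ ^ (-(1 + γ))) * this

noncomputable def C (γ : ℝ) : ℝ := ∫ ξ in Ioi 0, g γ 1 ξ

lemma g_main {γ : ℝ} (h0 : 0 < γ) (h2 : γ < 2) (x : ℝ) :
    IntegrableOn (g γ x) (Ioi 0) ∧ ∫ ξ in Ioi 0, g γ x ξ = |x| ^ γ * C γ := by
  rw [g_abs]
  rcases (abs_nonneg x).eq_or_lt with h | h
  · have : g γ 0 = fun _ => 0 := by ext; simp [g]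
    rw [← h, this]; simp [h0.ne']
  · constructor
    · have h1 := (integrableOn_Ioi_comp_mul_left_iff (g γ 1) 0 h).2 (by simpa using g_int1 h0 h2)
      exact IntegrableOn.congr_fun (h1.const_mul (|x| ^ (1 + γ)))
        (fun ξ hξ => (g_scale γ h hξ).symm) measurableSet_Ioi
    · rw [setIntegral_congr_fun measurableSet_Ioi (fun ξ hξ => g_scale γ h hξ),
        integral_const_mul, integral_comp_mul_left_Ioi (g γ 1) 0 h, mul_zero, rpow_add h,
        rpow_one, C, smul_eq_mul]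
      field_simp

lemma low {γ : ℝ} (h0 : 0 < γ) (F : ℝ → ℝ) (hF : Continuous F) (hp : ∀ ξ, 0 ≤ F ξ)
    (hi : IntegrableOn (fun ξ => F ξ * ξ ^ (-(1 + γ))) (Ioi 0)) :
    π ^ (-(1 + γ)) * ∫ ξ in (0 : ℝ)..π, F ξ ≤ ∫ ξ in Ioi 0, F ξ * ξ ^ (-(1 + γ)) := by
  rw [intervalIntegral.integral_of_le pi_pos.le, ← integral_const_mul]
  calc _ ≤ ∫ ξ in Ioc 0 π, F ξ * ξ ^ (-(1 + γ)) := by
        apply setIntegral_mono_on
        · exact ((hF.integrableOn_Icc (a := 0) (b := π)).mono_set Ioc_subset_Icc_self).const_mul _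
        · exact hi.mono_set Ioc_subset_Ioi_self
        · exact measurableSet_Ioc
        · intro ξ hξ
          rw [mul_comm]
          exact mul_le_mul_of_nonneg_left
            (rpow_le_rpow_of_nonpos hξ.1 hξ.2 (by linarith)) (hp ξ)
    _ ≤ _ := by
        apply setIntegral_mono_set hi
        · filter_upwards [ae_restrict_mem measurableSet_Ioi] with ξ hξ
          exact mul_nonneg (hp ξ) (rpow_nonneg (le_of_lt hξ) _)
        · exact Ioc_subset_Ioi_self.eventuallyLE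

lemma int_cos (k : ℤ) : ∫ ξ in (0 : ℝ)..π, cos (k * ξ) = if k = 0 then π else 0 := by
  split_ifs with h
  · simp [h]
  · rw [intervalIntegral.integral_comp_mul_left (fun x => cos x) (by exact_mod_cast h)]
    simp [Real.sin_int_mul_pi]

lemma C_pos {γ : ℝ} (h0 : 0 < γ) (h2 : γ < 2) : 0 < C γ := by
  have h := low h0 (fun ξ => 1 - cos (1 * ξ)) (by fun_prop)
    (fun ξ => by linarith [cos_le_one (1 * ξ)]) (g_int1 h0 h2)
  refine lt_of_lt_of_le ?_ h
  have : ∫ ξ in (0 : ℝ)..π, (1 - cos (1 * ξ)) = π := by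
    simp only [one_mul]
    rw [intervalIntegral.integral_sub (by simp) (by simp)]; simp
  rw [this]
  exact mul_pos (rpow_pos_of_pos pi_pos _) pi_pos

noncomputable def c (γ : ℝ) : ℝ := π ^ (-(1 + γ)) * π / (2 * C γ)

lemma main {γ : ℝ} (h0 : 0 < γ) (h2 : γ < 2) {N : ℕ} (a : Fin N → ℝ) :
    c γ * ((∑ i, a i) ^ 2 + ∑ i, a i ^ 2) ≤ ∑ i, ∑ j, a i * a j * R γ N i j := by
  set t : Fin N → ℝ := fun i => (i : ℕ) + 1 with ht
  let K : Fin N → Fin N → ℝ → ℝ := fun i j ξ =>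
    (1 - cos (t i * ξ)) + (1 - cos (t j * ξ)) - (1 - cos ((t i - t j) * ξ))
  let F : ℝ → ℝ := fun ξ => ∑ i, ∑ j, a i * a j * K i j ξ
  have hK : ∀ i j, Continuous (K i j) := fun i j => by simp only [K]; fun_prop
  have hp : ∀ ξ, 0 ≤ F ξ := by
    intro ξ
    have : F ξ = (∑ i, a i * (1 - cos (t i * ξ))) ^ 2 + (∑ i, a i * sin (t i * ξ)) ^ 2 := by
      simp only [sq, Finset.sum_mul_sum, ← Finset.sum_add_distrib, F, K]
      refine Finset.sum_congr rfl fun i _ => Finset.sum_congr rfl fun j _ => ?_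
      rw [sub_mul (t i), cos_sub]; ring
    rw [this]; positivity
  have e : (fun ξ => F ξ * ξ ^ (-(1 + γ))) = fun ξ => ∑ i, ∑ j,
      a i * a j * (g γ (t i) ξ + g γ (t j) ξ - g γ (t i - t j) ξ) := by
    ext ξ
    simp only [F, K, g, Finset.sum_mul]
    refine Finset.sum_congr rfl fun i _ => Finset.sum_congr rfl fun j _ => ?_
    ring
  have hi : ∀ i j, IntegrableOn (fun ξ =>
      a i * a j * (g γ (t i) ξ + g γ (t j) ξ - g γ (t i - t j) ξ)) (Ioi 0) := fun i j =>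
    (((g_main h0 h2 _).1.add (g_main h0 h2 _).1).sub (g_main h0 h2 _).1).const_mul _
  have h := low h0 F (by simp only [F]; fun_prop) hp (by
    rw [e]; exact integrable_finsetSum _ fun i _ => integrable_finsetSum _ fun j _ => hi i j)
  have h1 : ∫ ξ in Ioi 0, F ξ * ξ ^ (-(1 + γ)) = 2 * C γ * ∑ i, ∑ j, a i * a j * R γ N i j := by
    rw [e, integral_finsetSum _ fun i _ => integrable_finsetSum _ fun j _ => hi i j,
      Finset.mul_sum]
    refine Finset.sum_congr rfl fun i _ => ?_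
    rw [integral_finsetSum _ fun j _ => hi i j, Finset.mul_sum]
    refine Finset.sum_congr rfl fun j _ => ?_
    have hij : IntegrableOn (fun ξ => g γ (t i) ξ + g γ (t j) ξ) (Ioi 0) :=
      (g_main h0 h2 _).1.add (g_main h0 h2 _).1
    rw [integral_const_mul, integral_sub hij
      (g_main h0 h2 _).1, integral_add (g_main h0 h2 _).1 (g_main h0 h2 _).1,
      (g_main h0 h2 _).2, (g_main h0 h2 _).2, (g_main h0 h2 _).2]
    simp only [R, ht]; ring
  have h3 : ∀ i j, ∫ ξ in (0 : ℝ)..π, K i j ξ = π + if i = j then π else 0 := by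
    intro i j
    have a1 := int_cos ((i : ℕ) + 1)
    have a2 := int_cos ((j : ℕ) + 1)
    have a3 := int_cos (((i : ℕ) + 1) - ((j : ℕ) + 1))
    rw [if_neg (by omega)] at a1 a2
    have a4 : (((i : ℕ) : ℤ) + 1 - (((j : ℕ) : ℤ) + 1) = 0) ↔ i = j := by
      rw [Fin.ext_iff]; omega
    simp only [a4] at a3
    push_cast at a1 a2 a3
    have ic : ∀ s : ℝ, IntervalIntegrable (fun ξ => 1 - cos (s * ξ)) volume 0 π := fun s =>
      (by fun_prop : Continuous fun ξ => 1 - cos (s * ξ)).intervalIntegrable _ _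
    have ie : ∀ s : ℝ, ∫ ξ in (0 : ℝ)..π, (1 - cos (s * ξ)) =
        π - ∫ ξ in (0 : ℝ)..π, cos (s * ξ) := fun s => by
      rw [intervalIntegral.integral_sub (by simp)
        ((by fun_prop : Continuous fun ξ => cos (s * ξ)).intervalIntegrable _ _)]
      simp
    simp only [K]
    rw [intervalIntegral.integral_sub ((ic _).add (ic _)) (ic _),
      intervalIntegral.integral_add (ic _) (ic _), ie, ie, ie]
    simp only [ht]
    rw [a1, a2, a3]; ring
  have h4 : ∫ ξ in (0 : ℝ)..π, F ξ = π * ((∑ i, a i) ^ 2 + ∑ i, a i ^ 2) := by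
    simp only [F]
    rw [intervalIntegral.integral_finsetSum fun i _ =>
      (by fun_prop : Continuous fun ξ => ∑ j, a i * a j * K i j ξ).intervalIntegrable _ _]
    rw [sq, Finset.sum_mul_sum, ← Finset.sum_add_distrib, Finset.mul_sum]
    refine Finset.sum_congr rfl fun i _ => ?_
    rw [intervalIntegral.integral_finsetSum fun j _ =>
      (by fun_prop : Continuous fun ξ => a i * a j * K i j ξ).intervalIntegrable _ _]
    simp only [intervalIntegral.integral_const_mul, h3, mul_add, Finset.sum_add_distrib,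
      mul_ite, mul_zero, Finset.sum_ite_eq, Finset.mem_univ, if_true, Finset.mul_sum]
    congr 1
    · exact Finset.sum_congr rfl fun j _ => by ring
    · ring
  rw [h1, h4] at h
  have hC := C_pos h0 h2
  rw [c, div_mul_eq_mul_div, div_le_iff₀ (by positivity)]
  linarith

lemma c_pos {γ : ℝ} (h0 : 0 < γ) (h2 : γ < 2) : 0 < c γ := by
  have := C_pos h0 h2
  have := pi_pos
  unfold c; positivity

lemma psd {γ : ℝ} (h0 : 0 < γ) (h2 : γ < 2) (N : ℕ) (d : ℝ) (hd : d ≤ c γ) :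
    Matrix.PosSemidef (Matrix.of fun i j => R γ N i j - d) := by
  rw [Matrix.posSemidef_iff_dotProduct_mulVec]
  constructor
  · ext i j
    simp only [Matrix.conjTranspose_apply, Matrix.of_apply, star_trivial, R]
    rw [abs_sub_comm]; ring
  · intro a
    have h := main h0 h2 a
    have h1 : star a ⬝ᵥ (Matrix.of fun i j => R γ N i j - d) *ᵥ a =
        ∑ i, ∑ j, a i * a j * R γ N i j - d * (∑ i, a i) ^ 2 := by
      rw [sq, Finset.sum_mul_sum]
      simp only [dotProduct, Matrix.mulVec, Matrix.of_apply, star_trivial,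
        Finset.mul_sum, ← Finset.sum_sub_distrib]
      exact Finset.sum_congr rfl fun i _ => Finset.sum_congr rfl fun j _ => by ring
    rw [h1]
    have h3 : 0 ≤ ∑ i, a i ^ 2 := by positivity
    nlinarith [c_pos h0 h2, sq_nonneg (∑ i, a i)]

lemma main2 {γ : ℝ} (h0 : 0 < γ) (h2 : γ < 2) {N : ℕ} (a : Fin N → ℝ) :
    c γ * ∑ i, ∑ j, a i * a j * R γ N i j ≤ ∑ i, ∑ j, a i * a j * R γ N i j ^ 2 := by
  have h := (Matrix.posSemidef_iff_dotProduct_mulVec.1
    ((psd h0 h2 N 0 (c_pos h0 h2).le).hadamard (psd h0 h2 N (c γ) le_rfl))).2 a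
  simp only [dotProduct, Matrix.mulVec, Matrix.of_apply, star_trivial, Matrix.hadamard_apply,
    Finset.mul_sum] at h
  rw [← sub_nonneg]
  refine h.trans_eq ?_
  simp only [Finset.mul_sum, ← Finset.sum_sub_distrib]
  exact Finset.sum_congr rfl fun i _ => Finset.sum_congr rfl fun j _ => by ring

lemma q_eq {N : ℕ} (M : Matrix (Fin N) (Fin N) ℝ) (a : Fin N → ℂ) :
    q M a = ∑ i, ∑ j, (a i).re * (a j).re * M i j + ∑ i, ∑ j, (a i).im * (a j).im * M i j := by
  simp only [q, Complex.re_sum, ← Finset.sum_add_distrib]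
  refine Finset.sum_congr rfl fun i _ => Finset.sum_congr rfl fun j _ => ?_
  simp; ring

lemma q_pos {γ : ℝ} (h0 : 0 < γ) (h2 : γ < 2) {N : ℕ} (a : Fin N → ℂ) (ha : a ≠ 0) :
    0 < q (R γ N) a := by
  rw [q_eq]
  have h1 := main h0 h2 fun i => (a i).re
  have h3 := main h0 h2 fun i => (a i).im
  obtain ⟨k, hk⟩ := Function.ne_iff.1 ha
  have h4 : 0 < (a k).re ^ 2 + (a k).im ^ 2 := by
    have := Complex.normSq_pos.2 hk
    rw [Complex.normSq_apply] at this; nlinarith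
  have h5 := Finset.single_le_sum (f := fun i => (a i).re ^ 2) (fun i _ => sq_nonneg _)
    (Finset.mem_univ k)
  have h6 := Finset.single_le_sum (f := fun i => (a i).im ^ 2) (fun i _ => sq_nonneg _)
    (Finset.mem_univ k)
  have h7 : 0 < c γ * (((∑ i, (a i).re) ^ 2 + ∑ i, (a i).re ^ 2) +
      ((∑ i, (a i).im) ^ 2 + ∑ i, (a i).im ^ 2)) :=
    mul_pos (c_pos h0 h2)
      (by nlinarith [sq_nonneg (∑ i, (a i).re), sq_nonneg (∑ i, (a i).im)])
  linarith

theorem result (γ : ℝ) (h0 : 0 < γ) (h2 : γ < 2) :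
    (∀ (N : ℕ) (a : Fin N → ℂ), a ≠ 0 → 0 < q (R γ N) a) ∧
    ∃ c : ℝ, 0 < c ∧ (∀ N, 1 ≤ N → c ≤ kappa γ N) ∧
      ∀ κ, Tendsto (kappa γ) atTop (𝓝 κ) → c ≤ κ := by
  have h : ∀ N, 1 ≤ N → c γ ≤ kappa γ N := by
    intro N hN
    apply le_csInf
    · refine ⟨_, fun _ => 1, fun h => ?_, rfl⟩
      simpa using congrFun h ⟨0, hN⟩
    · rintro r ⟨a, ha, rfl⟩
      rw [le_div_iff₀ (q_pos h0 h2 a ha), q_eq, q_eq]
      have h1 := main2 h0 h2 fun i => (a i).re
      have h3 := main2 h0 h2 fun i => (a i).im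
      linarith
  refine ⟨fun N a ha => q_pos h0 h2 a ha, c γ, c_pos h0 h2, h, fun κ hκ => ?_⟩
  exact ge_of_tendsto hκ (eventually_atTop.2 ⟨1, h⟩)

end Pool.Agent.Results.MP_271f9a_pr.Kappa
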